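import Mathlib

/-!
# Zero-gradient elements: competitors with general labels

`K` closed, `l : ℂ → X` a label (with values in any type) which is locally constant off `K`.
-/

namespace Pool.Agent.MP099f24

open MeasureTheory Filter Topology Set Metric
open scoped ENNReal

/-- `l` is locally constant off `K`. -/
def LC {X : Type*} (l : ℂ → X) (K : Set ℂ) : Prop := ∀ z, z ∉ K → ∀ᶠ w in 𝓝 z, l w = l z

theorem LC.mono {X : Type*} {l : ℂ → X} {K K' : Set ℂ} (h : LC l K) (hs : K ⊆ K') : LC l K' :=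
  fun z hz => h z fun hzK => hz (hs hzK)

/-- A closed set `K` with a label `l`, locally constant off `K`, which has minimal length among the
competitors with a label. -/
structure ZMin {X : Type*} (l : ℂ → X) (K : Set ℂ) : Prop where
  closed : IsClosed K
  lc : LC l K
  min : ∀ (x : ℂ) (r : ℝ), 0 < r → ∀ K'' : Set ℂ, IsClosed K'' → K'' ⊆ closedBall x r →
    ∀ l' : ℂ → X, (∀ z, z ∉ ball x r → l' z = l z) → LC l' ((K \ ball x r) ∪ K'') →
      (μH[1] : Measure ℂ) (K ∩ ball x r) ≤ (μH[1] : Measure ℂ) K''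

theorem ZMin.minS {X : Type*} {l : ℂ → X} {K : Set ℂ} (h : ZMin l K) (x : ℂ) (r : ℝ) (hr : 0 < r)
    (S : Finset (ℂ × ℂ)) (hS : ∀ s ∈ S, segment ℝ s.1 s.2 ⊆ closedBall x r) (l' : ℂ → X)
    (h1 : ∀ z, z ∉ ball x r → l' z = l z)
    (h2 : LC l' ((K \ ball x r) ∪ ⋃ s ∈ S, segment ℝ s.1 s.2)) :
    (μH[1] : Measure ℂ) (K ∩ ball x r) ≤ ∑ s ∈ S, ENNReal.ofReal (dist s.1 s.2) := by
  have hcl : ∀ a b : ℂ, IsClosed (segment ℝ a b) := by
    intro a b
    rw [segment_eq_image']
    exact (isCompact_Icc.image (by fun_prop)).isClosed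
  refine (h.min x r hr _ (S.finite_toSet.isClosed_biUnion fun s _ => hcl s.1 s.2)
    (iUnion₂_subset hS) l' h1 h2).trans ?_
  refine (measure_biUnion_finset_le S _).trans (Finset.sum_le_sum fun s _ => ?_)
  rw [hausdorffMeasure_segment, edist_dist]

end Pool.Agent.MP099f24
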