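import Mathlib
import Pool.Agent.Lib.MP_099f24_an.Z.Defs

/-!
# Cone competitors
-/

namespace Pool.Agent.MP099f24

open MeasureTheory Filter Topology Set Metric
open scoped ENNReal

/-- The shifted set. -/
def zshift (C : Set ℂ) (m : ℂ) : Set ℂ := {w | w + m ∈ C}

/-- Radial projection from `m` onto the boundary of `C`. -/
noncomputable def zproj (C : Set ℂ) (m z : ℂ) : ℂ := m + (gauge (zshift C m) (z - m))⁻¹ • (z - m)

theorem zshift_eq (C : Set ℂ) (m : ℂ) : zshift C m = (Homeomorph.addRight m) ⁻¹' C := rfl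

theorem zshift_isOpen {C : Set ℂ} (hC : IsOpen C) (m : ℂ) : IsOpen (zshift C m) :=
  hC.preimage (continuous_add_const m)

theorem zshift_convex {C : Set ℂ} (hC : Convex ℝ C) (m : ℂ) : Convex ℝ (zshift C m) := by
  intro a ha b hb s t hs ht hst
  have : s • a + t • b + m = s • (a + m) + t • (b + m) := by
    rw [smul_add, smul_add]
    have : m = s • m + t • m := by rw [← add_smul, hst, one_smul]
    nth_rewrite 1 [this]
    abel
  change s • a + t • b + m ∈ C
  rw [this]
  exact hC ha hb hs ht hst

theorem zshift_frontier (C : Set ℂ) (m z : ℂ) : z - m ∈ frontier (zshift C m) ↔ z ∈ frontier C := by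
  rw [zshift_eq, ← Homeomorph.preimage_frontier, Set.mem_preimage]
  simp

theorem zshift_nhds {C : Set ℂ} (hC : IsOpen C) {m : ℂ} (hm : m ∈ C) : zshift C m ∈ 𝓝 0 := by
  apply (zshift_isOpen hC m).mem_nhds
  change 0 + m ∈ C
  rwa [zero_add]

section
variable {C : Set ℂ} (hC : IsOpen C) (hconv : Convex ℝ C) (hb : Bornology.IsBounded C) {m : ℂ}
  (hm : m ∈ C)
include hC hconv hb hm

omit hconv in
theorem zgauge_pos {z : ℂ} (hz : z ≠ m) : 0 < gauge (zshift C m) (z - m) := by
  rw [gauge_pos]
  · exact sub_ne_zero.mpr hz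
  · exact absorbent_nhds_zero (zshift_nhds hC hm)
  · rw [NormedSpace.isVonNBounded_iff]
    rw [isBounded_iff_forall_norm_le] at hb ⊢
    obtain ⟨R, hR⟩ := hb
    refine ⟨R + ‖m‖, fun w hw => ?_⟩
    have h1 := hR _ hw
    calc ‖w‖ = ‖(w + m) - m‖ := by ring_nf
      _ ≤ ‖w + m‖ + ‖m‖ := norm_sub_le _ _
      _ ≤ R + ‖m‖ := by linarith

omit hb in
theorem zgauge_lt {z : ℂ} : gauge (zshift C m) (z - m) < 1 ↔ z ∈ C := by
  rw [gauge_lt_one_iff_mem_interior (zshift_convex hconv m) (zshift_nhds hC hm),
    (zshift_isOpen hC m).interior_eq]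
  change z - m + m ∈ C ↔ z ∈ C
  rw [sub_add_cancel]

omit hb in
theorem zgauge_eq {z : ℂ} : gauge (zshift C m) (z - m) = 1 ↔ z ∈ frontier C := by
  rw [gauge_eq_one_iff_mem_frontier (zshift_convex hconv m) (zshift_nhds hC hm),
    zshift_frontier]

theorem zproj_mem {z : ℂ} (hz : z ≠ m) : zproj C m z ∈ frontier C := by
  rw [← zgauge_eq hC hconv hm]
  unfold zproj
  have hg := zgauge_pos hC hb hm hz
  rw [add_sub_cancel_left, gauge_smul_of_nonneg (by positivity), smul_eq_mul,
    inv_mul_cancel₀ hg.ne']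

omit hb in
theorem zproj_self {z : ℂ} (hz : z ∈ frontier C) : zproj C m z = z := by
  unfold zproj
  rw [(zgauge_eq hC hconv hm).mpr hz]
  simp

theorem zproj_cont {z : ℂ} (hz : z ≠ m) : ContinuousAt (zproj C m) z := by
  unfold zproj
  have hg := zgauge_pos hC hb hm hz
  have h1 : ContinuousAt (fun z => gauge (zshift C m) (z - m)) z :=
    ((continuous_gauge (zshift_convex hconv m) (zshift_nhds hC hm)).comp
      (continuous_sub_right m)).continuousAt
  exact continuousAt_const.add ((h1.inv₀ hg.ne').smul (continuous_sub_right m).continuousAt)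

theorem mem_segment_zproj {z : ℂ} (hz : z ∈ C) (hzm : z ≠ m) :
    z ∈ segment ℝ m (zproj C m z) := by
  have hg := zgauge_pos hC hb hm hzm
  have hg1 := (zgauge_lt hC hconv hm).mpr hz
  rw [segment_eq_image']
  refine ⟨gauge (zshift C m) (z - m), ⟨hg.le, hg1.le⟩, ?_⟩
  simp only [zproj, add_sub_cancel_left]
  rw [smul_smul, mul_inv_cancel₀ hg.ne', one_smul, add_sub_cancel]

/-- The label of the cone competitor. -/
theorem cone_LC {X : Type*} {l : ℂ → X} {K : Set ℂ} (hl : LC l K)
    {l' : ℂ → X} (h1 : ∀ z ∈ C, l' z = l (zproj C m z)) (h2 : ∀ z, z ∉ C → l' z = l z) :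
    LC l' ((K \ C) ∪ ({m} ∪ ⋃ p ∈ K ∩ frontier C, segment ℝ m p)) := by
  intro z hz
  rw [mem_union, mem_union, not_or, not_or] at hz
  obtain ⟨hz1, hz2, hz3⟩ := hz
  rw [mem_singleton_iff] at hz2
  by_cases hzC : z ∈ C
  · have hp : zproj C m z ∉ K := by
      intro hp
      apply hz3
      rw [mem_iUnion₂]
      exact ⟨_, ⟨hp, zproj_mem hC hconv hb hm hz2⟩, mem_segment_zproj hC hconv hb hm hzC hz2⟩
    have h3 := (zproj_cont hC hconv hb hm hz2).eventually (hl _ hp)
    filter_upwards [h3, hC.mem_nhds hzC] with w hw hwC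
    rw [h1 w hwC, hw, h1 z hzC]
  · have hzK : z ∉ K := fun h => hz1 ⟨h, hzC⟩
    by_cases hzf : z ∈ frontier C
    · have hself := zproj_self hC hconv hm hzf
      have h4 := zproj_cont hC hconv hb hm hz2
      unfold ContinuousAt at h4
      rw [hself] at h4
      have h3 := h4.eventually (hl z hzK)
      filter_upwards [h3, hl z hzK] with w hw hw2
      by_cases hwC : w ∈ C
      · rw [h1 w hwC, hw, h2 z hzC]
      · rw [h2 w hwC, h2 z hzC, hw2]
    · have hzc : z ∉ closure C := by
        intro h
        apply hzf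
        rw [frontier, hC.interior_eq]
        exact ⟨h, hzC⟩
      filter_upwards [hl z hzK, isClosed_closure.isOpen_compl.mem_nhds hzc] with w hw hw2
      rw [h2 w (fun h => hw2 (subset_closure h)), h2 z hzC, hw]

end

/-- Off-centre cone over the boundary points. -/
theorem ZMin.cone {X : Type*} {l : ℂ → X} {K : Set ℂ} (h : ZMin l K) {x : ℂ} {r : ℝ} (hr : 0 < r)
    (hf : (K ∩ sphere x r).Finite) {m : ℂ} (hm : m ∈ ball x r) :
    (μH[1] : Measure ℂ) (K ∩ ball x r) ≤ ∑ p ∈ hf.toFinset, ENNReal.ofReal (dist m p) := by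
  classical
  set S : Finset (ℂ × ℂ) := insert (m, m) (hf.toFinset.image (fun p => (m, p))) with hS
  have hfr : frontier (ball x r) = sphere x r := frontier_ball x hr.ne'
  have hmin := h.minS x r hr S ?_
    (fun z => if z ∈ ball x r then l (zproj (ball x r) m z) else l z) ?_ ?_
  · refine hmin.trans ?_
    rw [hS]
    by_cases hmm : (m, m) ∈ hf.toFinset.image (fun p => (m, p))
    · rw [Finset.insert_eq_of_mem hmm, Finset.sum_image]
      intro a _ b _ hab
      exact (Prod.ext_iff.mp hab).2
    · rw [Finset.sum_insert hmm, Finset.sum_image]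
      · simp
      · intro a _ b _ hab
        exact (Prod.ext_iff.mp hab).2
  · intro s hs
    rw [hS, Finset.mem_insert, Finset.mem_image] at hs
    rcases hs with rfl | ⟨p, hp, rfl⟩
    · rw [segment_same]
      exact singleton_subset_iff.mpr (ball_subset_closedBall hm)
    · rw [Set.Finite.mem_toFinset] at hp
      exact (convex_closedBall x r).segment_subset (ball_subset_closedBall hm)
        (sphere_subset_closedBall hp.2)
  · intro z hz
    rw [if_neg hz]
  · refine (cone_LC isOpen_ball (convex_ball x r) isBounded_ball hm h.lc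
      (fun z hz => if_pos hz) (fun z hz => if_neg hz)).mono ?_
    rw [hfr]
    apply union_subset_union_right
    rintro z (hz | hz)
    · rw [mem_iUnion₂]
      refine ⟨(m, m), by rw [hS]; exact Finset.mem_insert_self _ _, ?_⟩
      rw [segment_same]
      exact hz
    · rw [mem_iUnion₂] at hz ⊢
      obtain ⟨p, hp, hzp⟩ := hz
      refine ⟨(m, p), ?_, hzp⟩
      rw [hS, Finset.mem_insert, Finset.mem_image]
      exact Or.inr ⟨p, hf.mem_toFinset.mpr hp, rfl⟩

/-- If only one label occurs on the circle then `K` has no length in the disc. -/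
theorem ZMin.erase {X : Type*} {l : ℂ → X} {K : Set ℂ} (h : ZMin l K) {x : ℂ} {r : ℝ} (hr : 0 < r)
    {c : X} (hc : ∀ z ∈ sphere x r, z ∉ K → l z = c) :
    (μH[1] : Measure ℂ) (K ∩ ball x r) = 0 := by
  classical
  have hmin := h.minS x r hr ∅ (by simp) (fun z => if z ∈ ball x r then c else l z) ?_ ?_
  · simpa using hmin
  · intro z hz
    rw [if_neg hz]
  · intro z hz
    rw [mem_union, not_or] at hz
    by_cases hzb : z ∈ ball x r
    · filter_upwards [isOpen_ball.mem_nhds hzb] with w hw
      rw [if_pos hw, if_pos hzb]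
    · have hzK : z ∉ K := fun hK => hz.1 ⟨hK, hzb⟩
      by_cases hzs : z ∈ sphere x r
      · have hzc := hc z hzs hzK
        filter_upwards [h.lc z hzK] with w hw
        simp only [if_neg hzb]
        split_ifs
        · exact hzc.symm
        · exact hw
      · have hzc : z ∉ closedBall x r := by
          intro h1
          apply hzs
          rw [mem_sphere]
          rw [mem_closedBall] at h1
          rw [mem_ball, not_lt] at hzb
          exact le_antisymm h1 hzb
        filter_upwards [h.lc z hzK, isClosed_closedBall.isOpen_compl.mem_nhds hzc] with w hw hw2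
        simp only [if_neg hzb]
        rw [if_neg (fun h1 => hw2 (ball_subset_closedBall h1)), hw]

end Pool.Agent.MP099f24
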