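import Mathlib
import Pool.Agent.Lib.MP_099f24_an.Z.Cone

/-!
# Four or more boundary points: a competitor with a Steiner point
-/

namespace Pool.Agent.MP099f24

open MeasureTheory Filter Topology Set Metric
open scoped ENNReal ComplexConjugate

/-- the real inner product of the plane, in coordinates -/
def zin (a b : ℂ) : ℝ := a.re * b.re + a.im * b.im

theorem zin_comm (a b : ℂ) : zin a b = zin b a := by unfold zin; ring

theorem zin_self {a : ℂ} (ha : ‖a‖ = 1) : a.re ^ 2 + a.im ^ 2 = 1 := by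
  have := Complex.sq_norm a
  rw [ha, Complex.normSq_apply] at this
  nlinarith

theorem zin_lt_one {a b : ℂ} (ha : ‖a‖ = 1) (hb : ‖b‖ = 1) (hab : a ≠ b) : zin a b < 1 := by
  have h1 := zin_self ha
  have h2 := zin_self hb
  by_contra h
  push Not at h
  unfold zin at h
  apply hab
  have h3 : (a.re - b.re) ^ 2 + (a.im - b.im) ^ 2 ≤ 0 := by nlinarith
  have h4 : a.re - b.re = 0 := by nlinarith [sq_nonneg (a.re - b.re), sq_nonneg (a.im - b.im)]
  have h5 : a.im - b.im = 0 := by nlinarith [sq_nonneg (a.re - b.re), sq_nonneg (a.im - b.im)]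
  apply Complex.ext <;> linarith

/-- Among four vectors in the plane two have nonnegative inner product. -/
theorem zin_four {a b c d : ℂ} (ha : ‖a‖ = 1) (h1 : zin a b < 0) (h2 : zin a c < 0)
    (h3 : zin a d < 0) : 0 ≤ zin b c ∨ 0 ≤ zin b d ∨ 0 ≤ zin c d := by
  have hn := zin_self ha
  unfold zin at *
  -- rotated imaginary parts
  set B := a.re * b.im - a.im * b.re with hB
  set Cc := a.re * c.im - a.im * c.re with hC
  set Dd := a.re * d.im - a.im * d.re with hD
  have key : ∀ u v : ℂ, u.re * v.re + u.im * v.im =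
      (a.re * u.re + a.im * u.im) * (a.re * v.re + a.im * v.im) +
      (a.re * u.im - a.im * u.re) * (a.re * v.im - a.im * v.re) := by
    intro u v
    have : (a.re * u.re + a.im * u.im) * (a.re * v.re + a.im * v.im) +
      (a.re * u.im - a.im * u.re) * (a.re * v.im - a.im * v.re) =
      (a.re ^ 2 + a.im ^ 2) * (u.re * v.re + u.im * v.im) := by ring
    rw [this, hn, one_mul]
  rw [key b c, key b d, key c d, ← hB, ← hC, ← hD]
  have m1 := mul_pos_of_neg_of_neg h1 h2
  have m2 := mul_pos_of_neg_of_neg h1 h3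
  have m3 := mul_pos_of_neg_of_neg h2 h3
  rcases le_total 0 B with hb | hb <;> rcases le_total 0 Cc with hc | hc <;>
    rcases le_total 0 Dd with hd | hd
  · left; have := mul_nonneg hb hc; linarith
  · left; have := mul_nonneg hb hc; linarith
  · right; left; have := mul_nonneg hb hd; linarith
  · right; right; have := mul_nonneg_of_nonpos_of_nonpos hc hd; linarith
  · right; right; have := mul_nonneg hc hd; linarith
  · right; left; have := mul_nonneg_of_nonpos_of_nonpos hb hd; linarith
  · left; have := mul_nonneg_of_nonpos_of_nonpos hb hc; linarith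
  · left; have := mul_nonneg_of_nonpos_of_nonpos hb hc; linarith

/-- The closest pair among at least four unit vectors. -/
theorem zin_pair {E : Finset ℂ} (hE : ∀ e ∈ E, ‖e‖ = 1) (h4 : 4 ≤ E.card) :
    ∃ a ∈ E, ∃ b ∈ E, a ≠ b ∧ 0 ≤ zin a b ∧
      ∀ e ∈ E, e ≠ a → e ≠ b → zin e a ≤ zin a b ∧ zin e b ≤ zin a b := by
  classical
  obtain ⟨⟨a, b⟩, hab, hmax⟩ := E.offDiag.exists_max_image (fun p => zin p.1 p.2) (by
    obtain ⟨a, ha, b, hb, hab⟩ := Finset.one_lt_card.mp (show 1 < E.card by omega)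
    exact ⟨(a, b), Finset.mem_offDiag.mpr ⟨ha, hb, hab⟩⟩)
  rw [Finset.mem_offDiag] at hab
  refine ⟨a, hab.1, b, hab.2.1, hab.2.2, ?_, ?_⟩
  · by_contra hneg
    push Not at hneg
    have hall : ∀ u ∈ E, ∀ v ∈ E, u ≠ v → zin u v < 0 := by
      intro u hu v hv huv
      exact (hmax (u, v) (Finset.mem_offDiag.mpr ⟨hu, hv, huv⟩)).trans_lt hneg
    obtain ⟨T, hT, hTc⟩ := Finset.exists_subset_card_eq h4
    obtain ⟨p, q, s, t, hpq, hps, hpt, hqs, hqt, hst, rfl⟩ := Finset.card_eq_four.mp hTc
    have mp : p ∈ E := hT (by simp)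
    have mq : q ∈ E := hT (by simp)
    have ms : s ∈ E := hT (by simp)
    have mt : t ∈ E := hT (by simp)
    rcases zin_four (hE p mp) (hall p mp q mq hpq) (hall p mp s ms hps) (hall p mp t mt hpt) with
      h | h | h
    · exact absurd (hall q mq s ms hqs) (not_lt.mpr h)
    · exact absurd (hall q mq t mt hqt) (not_lt.mpr h)
    · exact absurd (hall s ms t mt hst) (not_lt.mpr h)
  · intro e he hea heb
    constructor
    · exact hmax (e, a) (Finset.mem_offDiag.mpr ⟨he, hab.1, hea⟩)
    · exact hmax (e, b) (Finset.mem_offDiag.mpr ⟨he, hab.2.1, heb⟩)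

/-- cross product -/
def zcr (a b : ℂ) : ℝ := a.re * b.im - a.im * b.re

/-- first coordinate with respect to `a, b` (times the squared determinant) -/
def zal (a b z : ℂ) : ℝ := zcr a b * zcr z b

/-- second coordinate with respect to `a, b` (times the squared determinant) -/
def zbe (a b z : ℂ) : ℝ := zcr a b * zcr a z

theorem zcr_sq {a b : ℂ} (ha : ‖a‖ = 1) (hb : ‖b‖ = 1) : zcr a b ^ 2 = 1 - zin a b ^ 2 := by
  have h1 := zin_self ha
  have h2 := zin_self hb
  unfold zcr zin
  have : (a.re * b.im - a.im * b.re) ^ 2 + (a.re * b.re + a.im * b.im) ^ 2 =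
    (a.re ^ 2 + a.im ^ 2) * (b.re ^ 2 + b.im ^ 2) := by ring
  rw [h1, h2] at this
  linarith

/-- No other vector lies in the closed sector spanned by a closest pair. -/
theorem zsector {a b e : ℂ} (ha : ‖a‖ = 1) (hb : ‖b‖ = 1) (he : ‖e‖ = 1) (hab : a ≠ b)
    (h0 : 0 ≤ zin a b) (hea : zin e a ≤ zin a b) (heb : zin e b ≤ zin a b) :
    zal a b e < 0 ∨ zbe a b e < 0 := by
  by_contra hcon
  push Not at hcon
  obtain ⟨hA, hB⟩ := hcon
  have hc1 := zin_lt_one ha hb hab
  have hD := zcr_sq ha hb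
  set c := zin a b with hc
  set A := zal a b e with hAdef
  set B := zbe a b e with hBdef
  have h1 := zin_self ha
  have h2 := zin_self hb
  have h3 := zin_self he
  have hD0 : 0 < zcr a b ^ 2 := by rw [hD]; nlinarith
  -- D² e = A a + B b
  have hre : zcr a b ^ 2 * e.re = A * a.re + B * b.re := by
    rw [hAdef, hBdef]; unfold zal zbe zcr; ring
  have him : zcr a b ^ 2 * e.im = A * a.im + B * b.im := by
    rw [hAdef, hBdef]; unfold zal zbe zcr; ring
  set d := zcr a b ^ 2 with hd
  -- d = A (e·a) + B (e·b)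
  have e1 : d = A * zin e a + B * zin e b := by
    have : d * (e.re ^ 2 + e.im ^ 2) = e.re * (A * a.re + B * b.re) + e.im * (A * a.im + B * b.im) := by
      rw [← hre, ← him]; ring
    rw [h3, mul_one] at this
    rw [this]; unfold zin; ring
  have e2 : d ≤ (A + B) * c := by
    have g1 := mul_le_mul_of_nonneg_left hea hA
    have g2 := mul_le_mul_of_nonneg_left heb hB
    nlinarith
  -- d² = A² + B² + 2 A B c
  have e3 : d ^ 2 = A ^ 2 + B ^ 2 + 2 * A * B * c := by
    have : d ^ 2 * (e.re ^ 2 + e.im ^ 2) = (A * a.re + B * b.re) ^ 2 + (A * a.im + B * b.im) ^ 2 := by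
      rw [← hre, ← him]; ring
    rw [h3, mul_one] at this
    rw [this, hc]; unfold zin
    linear_combination A ^ 2 * h1 + B ^ 2 * h2
  have e4 : (A + B) ^ 2 * (1 + c) ≤ 2 * d ^ 2 := by
    rw [e3]; nlinarith [sq_nonneg (A - B)]
  have hAB : 0 ≤ A + B := by linarith
  have e5 : d ^ 2 ≤ (A + B) ^ 2 * c ^ 2 := by
    have : d ^ 2 ≤ ((A + B) * c) ^ 2 := by
      apply pow_le_pow_left₀ hD0.le e2
    linarith [mul_pow (A + B) c 2]
  have e6 : d ^ 2 * (1 + c) ≤ 2 * d ^ 2 * c ^ 2 := by
    have g := mul_le_mul_of_nonneg_right e5 (by linarith : (0:ℝ) ≤ 1 + c)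
    have g2 := mul_le_mul_of_nonneg_right e4 (sq_nonneg c)
    nlinarith
  have hd2 : 0 < d ^ 2 := by positivity
  have e7 : 1 + c ≤ 2 * c ^ 2 := by
    by_contra hlt
    push Not at hlt
    have := mul_lt_mul_of_pos_left hlt hd2
    linarith
  nlinarith

/-- the two linear forms cutting out a slightly enlarged sector -/
def zf1 (a b : ℂ) (δ : ℝ) (z : ℂ) : ℝ := zal a b z + δ * (zal a b z + zbe a b z)

/-- the two linear forms cutting out a slightly enlarged sector -/
def zf2 (a b : ℂ) (δ : ℝ) (z : ℂ) : ℝ := zbe a b z + δ * (zal a b z + zbe a b z)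

theorem zf1_smul (a b : ℂ) (δ t : ℝ) (z : ℂ) : zf1 a b δ (t • z) = t * zf1 a b δ z := by
  unfold zf1 zal zbe zcr
  simp only [Complex.real_smul, Complex.mul_re, Complex.mul_im, Complex.ofReal_re,
    Complex.ofReal_im]
  ring

theorem zf2_smul (a b : ℂ) (δ t : ℝ) (z : ℂ) : zf2 a b δ (t • z) = t * zf2 a b δ z := by
  unfold zf2 zal zbe zcr
  simp only [Complex.real_smul, Complex.mul_re, Complex.mul_im, Complex.ofReal_re,
    Complex.ofReal_im]
  ring

theorem zf1_add (a b : ℂ) (δ : ℝ) (z w : ℂ) : zf1 a b δ (z + w) = zf1 a b δ z + zf1 a b δ w := by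
  unfold zf1 zal zbe zcr
  simp only [Complex.add_re, Complex.add_im]
  ring

theorem zf2_add (a b : ℂ) (δ : ℝ) (z w : ℂ) : zf2 a b δ (z + w) = zf2 a b δ z + zf2 a b δ w := by
  unfold zf2 zal zbe zcr
  simp only [Complex.add_re, Complex.add_im]
  ring

theorem zf1_cont (a b : ℂ) (δ : ℝ) (x : ℂ) : Continuous (fun z => zf1 a b δ (z - x)) := by
  unfold zf1 zal zbe zcr
  fun_prop

theorem zf2_cont (a b : ℂ) (δ : ℝ) (x : ℂ) : Continuous (fun z => zf2 a b δ (z - x)) := by
  unfold zf2 zal zbe zcr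
  fun_prop

/-- enlarged open sector inside the disc -/
def zsec (a b : ℂ) (δ : ℝ) (x : ℂ) (r : ℝ) : Set ℂ :=
  ball x r ∩ ({z | 0 < zf1 a b δ (z - x)} ∩ {z | 0 < zf2 a b δ (z - x)})

theorem zsec_isOpen (a b : ℂ) (δ : ℝ) (x : ℂ) (r : ℝ) : IsOpen (zsec a b δ x r) :=
  isOpen_ball.inter ((isOpen_lt continuous_const (zf1_cont a b δ x)).inter
    (isOpen_lt continuous_const (zf2_cont a b δ x)))

theorem zsec_convex (a b : ℂ) (δ : ℝ) (x : ℂ) (r : ℝ) : Convex ℝ (zsec a b δ x r) := by
  refine (convex_ball x r).inter (Convex.inter ?_ ?_)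
  · intro p hp q hq s t hs ht hst
    simp only [mem_ofPred_eq] at *
    have h1 : s • p + t • q - x = s • (p - x) + t • (q - x) := by
      have : x = s • x + t • x := by rw [← add_smul, hst, one_smul]
      nth_rewrite 1 [this]
      simp only [smul_sub]
      abel
    rw [h1, zf1_add, zf1_smul, zf1_smul]
    rcases hs.eq_or_lt with rfl | hs
    · have : t = 1 := by linarith
      subst this; linarith
    · have := mul_pos hs hp
      have := mul_nonneg ht hq.le
      linarith
  · intro p hp q hq s t hs ht hst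
    simp only [mem_ofPred_eq] at *
    have h1 : s • p + t • q - x = s • (p - x) + t • (q - x) := by
      have : x = s • x + t • x := by rw [← add_smul, hst, one_smul]
      nth_rewrite 1 [this]
      simp only [smul_sub]
      abel
    rw [h1, zf2_add, zf2_smul, zf2_smul]
    rcases hs.eq_or_lt with rfl | hs
    · have : t = 1 := by linarith
      subst this; linarith
    · have := mul_pos hs hp
      have := mul_nonneg ht hq.le
      linarith

theorem zsec_closure {a b : ℂ} {δ : ℝ} {x : ℂ} {r : ℝ} {z : ℂ} (hz : z ∈ closure (zsec a b δ x r)) :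
    z ∈ closedBall x r ∧ 0 ≤ zf1 a b δ (z - x) ∧ 0 ≤ zf2 a b δ (z - x) := by
  have hcl : IsClosed (closedBall x r ∩ ({z | 0 ≤ zf1 a b δ (z - x)} ∩
      {z | 0 ≤ zf2 a b δ (z - x)})) :=
    isClosed_closedBall.inter ((isClosed_le continuous_const (zf1_cont a b δ x)).inter
      (isClosed_le continuous_const (zf2_cont a b δ x)))
  have hsub : zsec a b δ x r ⊆ closedBall x r ∩ ({z | 0 ≤ zf1 a b δ (z - x)} ∩
      {z | 0 ≤ zf2 a b δ (z - x)}) := by
    intro w hw
    obtain ⟨h1, h2, h3⟩ := hw
    simp only [mem_ofPred_eq] at h2 h3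
    exact ⟨ball_subset_closedBall h1, show 0 ≤ zf1 a b δ (w - x) from h2.le,
      show 0 ≤ zf2 a b δ (w - x) from h3.le⟩
  have := closure_minimal hsub hcl hz
  exact ⟨this.1, this.2.1, this.2.2⟩

/-- the length gained by the Steiner point -/
theorem zgain {a b : ℂ} (ha : ‖a‖ = 1) (hb : ‖b‖ = 1) (h0 : 0 ≤ zin a b) :
    ∃ τ : ℝ, 0 < τ ∧ ‖τ • (a + b)‖ < 1 ∧
      ‖τ • (a + b)‖ + ‖a - τ • (a + b)‖ + ‖b - τ • (a + b)‖ ≤ 2 - 1 / 20 := by
  have g1 := zin_self ha
  have g2 := zin_self hb
  set σ := ‖a + b‖ with hσ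
  have hσ2 : σ ^ 2 = 2 + 2 * zin a b := by
    rw [hσ, Complex.sq_norm, Complex.normSq_apply]
    simp only [Complex.add_re, Complex.add_im]
    unfold zin
    nlinarith
  have hσ0 : 0 ≤ σ := norm_nonneg _
  have hσl : (141 : ℝ) / 100 ≤ σ := by
    by_contra h
    push Not at h
    nlinarith
  have hσp : 0 < σ := by linarith
  set τ : ℝ := 3 / 10 / σ with hτ
  have hτp : 0 < τ := by positivity
  have hτσ : τ * σ = 3 / 10 := by rw [hτ]; field_simp
  have e1 : ‖τ • (a + b)‖ = 3 / 10 := by
    rw [norm_smul, Real.norm_eq_abs, abs_of_pos hτp, ← hσ, hτσ]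
  have hq : ∀ u v : ℂ, u.re ^ 2 + u.im ^ 2 = 1 → v.re ^ 2 + v.im ^ 2 = 1 → ‖u + v‖ = σ →
      ‖u - τ • (u + v)‖ ≤ 825 / 1000 := by
    intro u v hu hv huv
    have hsq : ‖u + v‖ ^ 2 = 2 + 2 * zin u v := by
      rw [Complex.sq_norm, Complex.normSq_apply]
      simp only [Complex.add_re, Complex.add_im]
      unfold zin
      nlinarith
    have hz : zin u v = zin a b := by
      rw [huv, hσ2] at hsq; linarith
    apply le_of_sq_le_sq _ (by norm_num)
    rw [Complex.sq_norm, Complex.normSq_apply]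
    simp only [Complex.sub_re, Complex.sub_im, Complex.real_smul, Complex.mul_re, Complex.mul_im,
      Complex.ofReal_re, Complex.ofReal_im, Complex.add_re, Complex.add_im]
    have hexp : (u.re - (τ * (u.re + v.re) - 0 * (u.im + v.im))) *
        (u.re - (τ * (u.re + v.re) - 0 * (u.im + v.im))) +
        (u.im - (τ * (u.im + v.im) + 0 * (u.re + v.re))) *
        (u.im - (τ * (u.im + v.im) + 0 * (u.re + v.re))) =
        (1 - τ) ^ 2 * (u.re ^ 2 + u.im ^ 2) + τ ^ 2 * (v.re ^ 2 + v.im ^ 2) -
          2 * τ * (1 - τ) * zin u v := by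
      unfold zin; ring
    rw [hexp, hu, hv, hz]
    have e3 : (1 - τ) ^ 2 * 1 + τ ^ 2 * 1 - 2 * τ * (1 - τ) * zin a b =
        1 - (τ * σ) * σ + (τ * σ) ^ 2 := by
      have : zin a b = σ ^ 2 / 2 - 1 := by linarith
      rw [this]; ring
    rw [e3, hτσ]
    nlinarith
  have e2 := hq a b g1 g2 rfl
  have e3 := hq b a g2 g1 (by rw [add_comm b a])
  rw [add_comm b a] at e3
  refine ⟨τ, hτp, by rw [e1]; norm_num, ?_⟩
  rw [e1]
  linarith

theorem zsum_insert_le {f : ℂ × ℂ → ℝ≥0∞} (a : ℂ × ℂ) (s : Finset (ℂ × ℂ)) [DecidableEq (ℂ × ℂ)] :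
    ∑ i ∈ insert a s, f i ≤ f a + ∑ i ∈ s, f i := by
  by_cases h : a ∈ s
  · rw [Finset.insert_eq_of_mem h]
    exact le_add_self
  · rw [Finset.sum_insert h]

theorem zf_eventually {a b e : ℂ} (h : zal a b e < 0 ∨ zbe a b e < 0) :
    ∀ᶠ δ in 𝓝[>] (0 : ℝ), zf1 a b δ e < 0 ∨ zf2 a b δ e < 0 := by
  rcases h with h | h
  · have hc : ContinuousAt (fun δ : ℝ => zf1 a b δ e) 0 := by
      unfold zf1; fun_prop
    have h0 : zf1 a b 0 e < 0 := by unfold zf1; linarith
    exact ((hc.eventually_lt continuousAt_const h0).filter_mono nhdsWithin_le_nhds).mono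
      fun _ h => Or.inl h
  · have hc : ContinuousAt (fun δ : ℝ => zf2 a b δ e) 0 := by
      unfold zf2; fun_prop
    have h0 : zf2 a b 0 e < 0 := by unfold zf2; linarith
    exact ((hc.eventually_lt continuousAt_const h0).filter_mono nhdsWithin_le_nhds).mono
      fun _ h => Or.inr h

/-- Four or more boundary points: the cone over them can be improved by a fixed amount. -/
theorem ZMin.four {X : Type*} {l : ℂ → X} {K : Set ℂ} (h : ZMin l K) {x : ℂ} {r : ℝ} (hr : 0 < r)
    (hf : (K ∩ sphere x r).Finite) (h4 : 4 ≤ hf.toFinset.card) :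
    (μH[1] : Measure ℂ) (K ∩ ball x r) ≤
      ENNReal.ofReal (((hf.toFinset.card : ℝ) - 1 / 20) * r) := by
  classical
  set P := hf.toFinset with hP
  set dir : ℂ → ℂ := fun p => (r⁻¹ : ℝ) • (p - x) with hdir
  have hPm : ∀ p ∈ P, p ∈ K ∧ dist p x = r := by
    intro p hp
    rw [hP, Set.Finite.mem_toFinset] at hp
    exact ⟨hp.1, mem_sphere.mp hp.2⟩
  have hdn : ∀ p ∈ P, ‖dir p‖ = 1 := by
    intro p hp
    rw [hdir]
    simp only
    rw [norm_smul, Real.norm_eq_abs, abs_of_pos (by positivity), ← dist_eq_norm, (hPm p hp).2,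
      inv_mul_cancel₀ hr.ne']
  have hdr : ∀ p, p = x + r • dir p := by
    intro p
    rw [hdir]
    simp only
    rw [smul_smul, mul_inv_cancel₀ hr.ne', one_smul, add_sub_cancel]
  have hdinj : Function.Injective dir := by
    intro p q hpq
    rw [hdr p, hdr q, hpq]
  set E := P.image dir with hE
  have hE1 : ∀ e ∈ E, ‖e‖ = 1 := by
    intro e he
    rw [hE, Finset.mem_image] at he
    obtain ⟨p, hp, rfl⟩ := he
    exact hdn p hp
  have hE4 : 4 ≤ E.card := by rw [hE, Finset.card_image_of_injective _ hdinj]; exact h4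
  obtain ⟨a, haE, b, hbE, hab, h0, hmax⟩ := zin_pair hE1 hE4
  have hc1 := zin_lt_one (hE1 a haE) (hE1 b hbE) hab
  have hD : 0 < zcr a b ^ 2 := by
    rw [zcr_sq (hE1 a haE) (hE1 b hbE)]; nlinarith
  -- choice of the sector
  have hev : ∀ᶠ δ in 𝓝[>] (0 : ℝ), ∀ e ∈ E, e ≠ a → e ≠ b → zf1 a b δ e < 0 ∨ zf2 a b δ e < 0 := by
    rw [Finset.eventually_all]
    intro e he
    by_cases hea : e = a
    · exact Eventually.of_forall fun δ h1 => absurd hea h1
    by_cases heb : e = b
    · exact Eventually.of_forall fun δ _ h1 => absurd heb h1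
    obtain ⟨m1, m2⟩ := hmax e he hea heb
    filter_upwards [zf_eventually (zsector (hE1 a haE) (hE1 b hbE) (hE1 e he) hab h0 m1 m2)]
      with δ hδ _ _ using hδ
  obtain ⟨δ, hδE, hδ0⟩ := (hev.and self_mem_nhdsWithin).exists
  have haa : 0 < zf1 a b δ a ∧ 0 < zf2 a b δ a := by
    have q1 : zal a b a = zcr a b ^ 2 := by unfold zal; ring
    have q2 : zbe a b a = 0 := by unfold zbe zcr; ring
    unfold zf1 zf2
    rw [q1, q2]
    constructor <;> nlinarith
  have hbb : 0 < zf1 a b δ b ∧ 0 < zf2 a b δ b := by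
    have q1 : zal a b b = 0 := by unfold zal zcr; ring
    have q2 : zbe a b b = zcr a b ^ 2 := by unfold zbe; ring
    unfold zf1 zf2
    rw [q1, q2]
    constructor <;> nlinarith
  set pa := x + r • a with hpa
  set pb := x + r • b with hpb
  have hpaP : pa ∈ P := by
    rw [hE, Finset.mem_image] at haE
    obtain ⟨p, hp, rfl⟩ := haE
    rw [hpa, ← hdr p]; exact hp
  have hpbP : pb ∈ P := by
    rw [hE, Finset.mem_image] at hbE
    obtain ⟨p, hp, rfl⟩ := hbE
    rw [hpb, ← hdr p]; exact hp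
  have hdpa : dir pa = a := by
    rw [hdir, hpa]
    simp only [add_sub_cancel_left]
    rw [smul_smul, inv_mul_cancel₀ hr.ne', one_smul]
  have hdpb : dir pb = b := by
    rw [hdir, hpb]
    simp only [add_sub_cancel_left]
    rw [smul_smul, inv_mul_cancel₀ hr.ne', one_smul]
  have hpapb : pa ≠ pb := fun h => hab (by rw [← hdpa, ← hdpb, h])
  obtain ⟨τ, hτ0, hτ1, gain⟩ := zgain (hE1 a haE) (hE1 b hbE) h0
  set m := x + r • (τ • (a + b)) with hm
  set C := zsec a b δ x r with hC
  have hmC : m ∈ C := by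
    have q : m - x = (r * τ) • (a + b) := by
      rw [hm, add_sub_cancel_left, smul_smul]
    refine ⟨?_, ?_, ?_⟩
    · rw [mem_ball, dist_eq_norm, hm, add_sub_cancel_left, norm_smul, Real.norm_eq_abs,
        abs_of_pos hr]
      nlinarith
    · change 0 < zf1 a b δ (m - x)
      rw [q, zf1_smul, zf1_add]
      have := haa.1; have := hbb.1; positivity
    · change 0 < zf2 a b δ (m - x)
      rw [q, zf2_smul, zf2_add]
      have := haa.2; have := hbb.2; positivity
  have hCb : C ⊆ ball x r := fun z hz => hz.1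
  -- first cone
  set l1 : ℂ → X := fun z => if z ∈ ball x r then l (zproj (ball x r) x z) else l z with hl1
  have hfr : frontier (ball x r) = sphere x r := frontier_ball x hr.ne'
  have hLC1 := cone_LC isOpen_ball (convex_ball x r) isBounded_ball (mem_ball_self hr) h.lc
      (l' := l1) (fun z hz => if_pos hz) (fun z hz => if_neg hz)
  rw [hfr] at hLC1
  set K1 := (K \ ball x r) ∪ ({x} ∪ ⋃ p ∈ K ∩ sphere x r, segment ℝ x p) with hK1
  set l2 : ℂ → X := fun z => if z ∈ C then l1 (zproj C m z) else l1 z with hl2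
  have hLC2 := cone_LC (zsec_isOpen a b δ x r) (zsec_convex a b δ x r)
    (isBounded_ball.subset hCb) hmC hLC1 (l' := l2) (fun z hz => if_pos hz) (fun z hz => if_neg hz)
  -- points of the first cone
  have hseg : ∀ p ∈ P, ∀ z ∈ segment ℝ x p, ∃ t : ℝ, 0 ≤ t ∧ t ≤ 1 ∧ z - x = (t * r) • dir p := by
    intro p hp z hz
    rw [segment_eq_image'] at hz
    obtain ⟨t, ht, rfl⟩ := hz
    refine ⟨t, ht.1, ht.2, ?_⟩
    simp only [add_sub_cancel_left, hdir]
    rw [smul_smul, mul_assoc, mul_inv_cancel₀ hr.ne', mul_one]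
  have hnot : ∀ p ∈ P, p ≠ pa → p ≠ pb → zf1 a b δ (dir p) < 0 ∨ zf2 a b δ (dir p) < 0 := by
    intro p hp h1 h2
    apply hδE (dir p) (Finset.mem_image_of_mem _ hp)
    · intro h3; exact h1 (hdinj (h3.trans hdpa.symm))
    · intro h3; exact h2 (hdinj (h3.trans hdpb.symm))
  have hK1f : ∀ z ∈ K1, z ∈ frontier C → z = x ∨ z = pa ∨ z = pb := by
    intro z hz hzf
    have hzcl := zsec_closure (frontier_subset_closure hzf)
    have hznC : z ∉ C := by
      rw [(zsec_isOpen a b δ x r).frontier_eq] at hzf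
      exact hzf.2
    have hmain : ∀ p ∈ P, z ∈ segment ℝ x p → z = x ∨ z = pa ∨ z = pb := by
      intro p hp hzs
      obtain ⟨t, ht0, ht1, hzt⟩ := hseg p hp z hzs
      rcases ht0.eq_or_lt with rfl | ht0
      · left
        rw [zero_mul, zero_smul, sub_eq_zero] at hzt
        exact hzt
      have htr : 0 < t * r := mul_pos ht0 hr
      obtain ⟨hz1, hz2, hz3⟩ := hzcl
      rw [hzt, zf1_smul] at hz2
      rw [hzt, zf2_smul] at hz3
      have hpab : p = pa ∨ p = pb := by
        by_contra hcon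
        push Not at hcon
        rcases hnot p hp hcon.1 hcon.2 with h1 | h1
        · have := mul_neg_of_pos_of_neg htr h1; linarith
        · have := mul_neg_of_pos_of_neg htr h1; linarith
      rcases ht1.eq_or_lt with rfl | ht1
      · right
        have hzp : z = p := by
          rw [one_mul] at hzt
          rw [hdr p, ← hzt, add_sub_cancel]
        rw [hzp]; exact hpab
      · exfalso
        apply hznC
        have hd := hdn p hp
        refine ⟨?_, ?_, ?_⟩
        · rw [mem_ball, dist_eq_norm, hzt, norm_smul, hd, Real.norm_eq_abs, abs_of_pos htr]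
          nlinarith
        · change 0 < zf1 a b δ (z - x)
          rw [hzt, zf1_smul]
          rcases hpab with rfl | rfl
          · rw [hdpa]; exact mul_pos htr haa.1
          · rw [hdpb]; exact mul_pos htr hbb.1
        · change 0 < zf2 a b δ (z - x)
          rw [hzt, zf2_smul]
          rcases hpab with rfl | rfl
          · rw [hdpa]; exact mul_pos htr haa.2
          · rw [hdpb]; exact mul_pos htr hbb.2
    rcases hz with hz | hz | hz
    · have hzP : z ∈ P := by
        rw [hP, Set.Finite.mem_toFinset]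
        refine ⟨hz.1, ?_⟩
        have h1 := mem_closedBall.mp hzcl.1
        have h2 := hz.2
        rw [mem_ball, not_lt] at h2
        exact mem_sphere.mpr (le_antisymm h1 h2)
      exact hmain z hzP (right_mem_segment ℝ x z)
    · left; exact hz
    · rw [mem_iUnion₂] at hz
      obtain ⟨p, hp, hzp⟩ := hz
      exact hmain p (hf.mem_toFinset.mpr hp) hzp
  have hK1C : ∀ p ∈ P, ∀ z ∈ segment ℝ x p, z ∉ C → z = x ∨ z = pa ∨ z = pb ∨
      (p ≠ pa ∧ p ≠ pb) := by
    intro p hp z hzs hzC
    obtain ⟨t, ht0, ht1, hzt⟩ := hseg p hp z hzs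
    by_contra hcon
    push Not at hcon
    obtain ⟨c1, c2, c3, c4⟩ := hcon
    have ht0' : 0 < t := by
      rcases ht0.eq_or_lt with rfl | h1
      · rw [zero_mul, zero_smul, sub_eq_zero] at hzt
        exact absurd hzt c1
      · exact h1
    have hpab : p = pa ∨ p = pb := by
      by_cases h1 : p = pa
      · exact Or.inl h1
      · exact Or.inr (c4 h1)
    have ht1' : t < 1 := by
      rcases ht1.eq_or_lt with rfl | h1
      · have hzp : z = p := by
          rw [one_mul] at hzt
          rw [hdr p, ← hzt, add_sub_cancel]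
        rw [hzp] at c2 c3
        rcases hpab with h2 | h2
        · exact absurd h2 c2
        · exact absurd h2 c3
      · exact h1
    have htr : 0 < t * r := mul_pos ht0' hr
    apply hzC
    have hd := hdn p hp
    refine ⟨?_, ?_, ?_⟩
    · rw [mem_ball, dist_eq_norm, hzt, norm_smul, hd, Real.norm_eq_abs, abs_of_pos htr]
      nlinarith
    · change 0 < zf1 a b δ (z - x)
      rw [hzt, zf1_smul]
      rcases hpab with rfl | rfl
      · rw [hdpa]; exact mul_pos htr haa.1
      · rw [hdpb]; exact mul_pos htr hbb.1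
    · change 0 < zf2 a b δ (z - x)
      rw [hzt, zf2_smul]
      rcases hpab with rfl | rfl
      · rw [hdpa]; exact mul_pos htr haa.2
      · rw [hdpb]; exact mul_pos htr hbb.2
  -- the competitor
  set S0 := ((P.erase pa).erase pb).image (fun p => (x, p)) with hS0
  set S : Finset (ℂ × ℂ) := insert (m, x) (insert (m, pa) (insert (m, pb) S0)) with hS
  have hxcb : x ∈ closedBall x r := mem_closedBall_self hr.le
  have hmcb : m ∈ closedBall x r := ball_subset_closedBall (hCb hmC)
  have hPcb : ∀ p ∈ P, p ∈ closedBall x r := fun p hp => by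
    rw [mem_closedBall, (hPm p hp).2]
  have hmin := h.minS x r hr S ?_ l2 ?_ ?_
  · refine hmin.trans ?_
    have s1 : ∑ s ∈ S, ENNReal.ofReal (dist s.1 s.2) ≤ ENNReal.ofReal (dist m x) +
        (ENNReal.ofReal (dist m pa) + (ENNReal.ofReal (dist m pb) +
          ∑ s ∈ S0, ENNReal.ofReal (dist s.1 s.2))) := by
      rw [hS]
      refine (zsum_insert_le _ _).trans (add_le_add le_rfl ?_)
      refine (zsum_insert_le _ _).trans (add_le_add le_rfl ?_)
      exact zsum_insert_le _ _
    have s2 : ∑ s ∈ S0, ENNReal.ofReal (dist s.1 s.2) =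
        ENNReal.ofReal (((P.card : ℝ) - 2) * r) := by
      rw [hS0, Finset.sum_image (fun u _ v _ huv => (Prod.ext_iff.mp huv).2)]
      have : ∀ p ∈ (P.erase pa).erase pb, ENNReal.ofReal (dist x p) = ENNReal.ofReal r := by
        intro p hp
        rw [dist_comm, (hPm p (Finset.mem_of_mem_erase (Finset.mem_of_mem_erase hp))).2]
      rw [Finset.sum_congr rfl this, Finset.sum_const, nsmul_eq_mul,
        Finset.card_erase_of_mem (Finset.mem_erase.mpr ⟨hpapb.symm, hpbP⟩),
        Finset.card_erase_of_mem hpaP, ENNReal.ofReal_mul (by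
          have : (4 : ℝ) ≤ P.card := by exact_mod_cast h4
          linarith)]
      congr 1
      rw [Nat.sub_sub, ← ENNReal.ofReal_natCast]
      congr 1
      rw [Nat.cast_sub (by omega)]
      norm_num
    have h4' : (4 : ℝ) ≤ P.card := by exact_mod_cast h4
    rw [s2, ← ENNReal.ofReal_add dist_nonneg (mul_nonneg (by linarith) hr.le),
      ← ENNReal.ofReal_add dist_nonneg (add_nonneg dist_nonneg (mul_nonneg (by linarith) hr.le)),
      ← ENNReal.ofReal_add dist_nonneg (add_nonneg dist_nonneg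
        (add_nonneg dist_nonneg (mul_nonneg (by linarith) hr.le)))] at s1
    refine s1.trans (ENNReal.ofReal_le_ofReal ?_)
    have d1 : dist m x = r * ‖τ • (a + b)‖ := by
      rw [dist_eq_norm, hm, add_sub_cancel_left, norm_smul, Real.norm_eq_abs, abs_of_pos hr]
    have d2 : dist m pa = r * ‖a - τ • (a + b)‖ := by
      rw [dist_comm, dist_eq_norm, hm, hpa, add_sub_add_left_eq_sub, ← smul_sub, norm_smul,
        Real.norm_eq_abs, abs_of_pos hr]
    have d3 : dist m pb = r * ‖b - τ • (a + b)‖ := by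
      rw [dist_comm, dist_eq_norm, hm, hpb, add_sub_add_left_eq_sub, ← smul_sub, norm_smul,
        Real.norm_eq_abs, abs_of_pos hr]
    rw [d1, d2, d3]
    nlinarith
  · intro s hs
    rw [hS, Finset.mem_insert, Finset.mem_insert, Finset.mem_insert, hS0, Finset.mem_image] at hs
    rcases hs with rfl | rfl | rfl | ⟨p, hp, rfl⟩
    · exact (convex_closedBall x r).segment_subset hmcb hxcb
    · exact (convex_closedBall x r).segment_subset hmcb (hPcb _ hpaP)
    · exact (convex_closedBall x r).segment_subset hmcb (hPcb _ hpbP)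
    · exact (convex_closedBall x r).segment_subset hxcb
        (hPcb _ (Finset.mem_of_mem_erase (Finset.mem_of_mem_erase hp)))
  · intro z hz
    rw [hl2]
    simp only
    rw [if_neg (fun hzC => hz (hCb hzC)), hl1]
    simp only
    rw [if_neg hz]
  · refine hLC2.mono ?_
    have hSx : segment ℝ m x ⊆ ⋃ s ∈ S, segment ℝ s.1 s.2 := by
      refine subset_biUnion_of_mem (u := fun s : ℂ × ℂ => segment ℝ s.1 s.2)
        (x := (m, x)) (by rw [hS]; simp)
    have hSa : segment ℝ m pa ⊆ ⋃ s ∈ S, segment ℝ s.1 s.2 := by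
      refine subset_biUnion_of_mem (u := fun s : ℂ × ℂ => segment ℝ s.1 s.2)
        (x := (m, pa)) (by rw [hS]; simp)
    have hSb : segment ℝ m pb ⊆ ⋃ s ∈ S, segment ℝ s.1 s.2 := by
      refine subset_biUnion_of_mem (u := fun s : ℂ × ℂ => segment ℝ s.1 s.2)
        (x := (m, pb)) (by rw [hS]; simp)
    rintro z (⟨hz, hzC⟩ | hz | hz)
    · rcases hz with hz | hz | hz
      · exact Or.inl hz
      · right
        rw [mem_singleton_iff] at hz
        rw [hz]
        exact hSx (right_mem_segment ℝ m x)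
      · right
        rw [mem_iUnion₂] at hz
        obtain ⟨p, hp, hzp⟩ := hz
        have hpP : p ∈ P := hf.mem_toFinset.mpr hp
        rcases hK1C p hpP z hzp hzC with rfl | rfl | rfl | ⟨h1, h2⟩
        · exact hSx (right_mem_segment ℝ _ _)
        · exact hSa (right_mem_segment ℝ _ _)
        · exact hSb (right_mem_segment ℝ _ _)
        · rw [mem_iUnion₂]
          refine ⟨(x, p), ?_, hzp⟩
          rw [hS, Finset.mem_insert, Finset.mem_insert, Finset.mem_insert, hS0, Finset.mem_image]
          exact Or.inr (Or.inr (Or.inr ⟨p, Finset.mem_erase.mpr ⟨h2, Finset.mem_erase.mpr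
            ⟨h1, hpP⟩⟩, rfl⟩))
    · right
      rw [mem_singleton_iff] at hz
      rw [hz]
      exact hSx (left_mem_segment ℝ m x)
    · right
      rw [mem_iUnion₂] at hz
      obtain ⟨p, hp, hzp⟩ := hz
      rcases hK1f p hp.1 hp.2 with rfl | rfl | rfl
      · exact hSx hzp
      · exact hSa hzp
      · exact hSb hzp

end Pool.Agent.MP099f24
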