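import Mathlib
import Pool.Agent.Lib.MP_099f24_an.Z.Four
import Pool.Agent.Lib.MP_099f24_an.TM.Defs
import Pool.Agent.Lib.MP_099f24_an.ZG.Basic

/-!
# Zero-gradient elements satisfy the hypotheses of the classification
-/

namespace Pool.Agent.MP099f24

open MeasureTheory Filter Topology Set Metric
open scoped ENNReal ContDiff

theorem zc_fderiv {w : ℂ → ℝ} {x : ℂ} (h : cgr w x = 0) : fderiv ℝ w x = 0 := by
  have h1 : fderiv ℝ w x 1 = 0 := by
    have := congrArg Complex.re h
    simpa [cgr] using this
  have h2 : fderiv ℝ w x Complex.I = 0 := by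
    have := congrArg Complex.im h
    simpa [cgr] using this
  ext z
  have hz : z = z.re • (1 : ℂ) + z.im • Complex.I := by
    apply Complex.ext <;> simp
  rw [hz, map_add, map_smul, map_smul, h1, h2]
  simp

/-- A `C¹` function with zero gradient off the closed set `K` is locally constant off `K`. -/
theorem zc_const {w : ℂ → ℝ} {K : Set ℂ} (hK : IsClosed K) (hw : ContDiffOn ℝ 1 w Kᶜ)
    (hg : ∀ x, x ∉ K → cgr w x = 0) {x : ℂ} (hx : x ∉ K) : ∀ᶠ y in 𝓝 x, w y = w x := by
  obtain ⟨ε, hε, hball⟩ := Metric.isOpen_iff.mp hK.isOpen_compl x hx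
  filter_upwards [ball_mem_nhds x hε] with y hy
  have hdiff : DifferentiableOn ℝ w (ball x ε) :=
    (hw.differentiableOn (by norm_num)).mono hball
  exact isOpen_ball.is_const_of_fderiv_eq_zero (convex_ball x ε).isPreconnected hdiff
    (fun z hz => zc_fderiv (hg z (hball hz))) hy (mem_ball_self hε)

/-- A function which is locally constant off `K` has zero gradient off `K`. -/
theorem zc_grad {w : ℂ → ℝ} {x : ℂ} (h : ∀ᶠ y in 𝓝 x, w y = w x) : cgr w x = 0 := by
  have h1 : fderiv ℝ w x = 0 := by
    have : w =ᶠ[𝓝 x] fun _ => w x := h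
    rw [this.fderiv_eq]
    simp
  unfold cgr
  rw [h1]
  simp

theorem zc_cen {w : ℂ → ℝ} {K A : Set ℂ} (hK : IsClosed K) (hA : MeasurableSet A)
    (hg : ∀ x, x ∉ K → cgr w x = 0) : cen w K A = (μH[1] : Measure ℂ) (K ∩ A) := by
  unfold cen
  rw [setLIntegral_congr_fun (g := fun _ => 0) (hA.diff hK.measurableSet)]
  · simp
  · intro x hx
    simp [hg x hx.2]

theorem zmin_of_tmin {u : ℂ → ℝ} {l : ℂ → Set ℂ} {K : Set ℂ} (h : TMin univ u l K)
    (hg : ∀ x, x ∉ K → cgr u x = 0) : ZMin (fun z => (u z, l z)) K := by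
  classical
  have hK : IsClosed K := by
    have := h.isOpen_off
    rw [← compl_eq_univ_sdiff] at this
    exact isOpen_compl_iff.mp this
  have hsm : ContDiffOn ℝ 1 u Kᶜ := by
    have := h.smooth
    rwa [← compl_eq_univ_sdiff] at this
  refine ⟨hK, ?_, ?_⟩
  · intro z hz
    filter_upwards [zc_const hK hsm hg hz, h.lab z ⟨mem_univ z, hz⟩] with w h1 h2
    rw [h1, h2]
  · intro x r hr K'' hK'' hsub l' hl' hLC
    by_cases hfin : (μH[1] : Measure ℂ) K'' = ⊤
    · rw [hfin]; exact le_top
    set K' := (K \ ball x r) ∪ K'' with hK'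
    have hK'c : IsClosed K' := (hK.sdiff isOpen_ball).union hK''
    have hwloc : ∀ z, z ∉ K' → ∀ᶠ y in 𝓝 z, (l' y).1 = (l' z).1 := by
      intro z hz
      filter_upwards [hLC z hz] with y hy
      rw [hy]
    have hKfin : ∀ C, IsCompact C → (μH[1] : Measure ℂ) (K ∩ C) < ⊤ := by
      intro C hC
      exact (le_add_self).trans_lt (h.fin C hC (subset_univ C))
    have hconf : TConf univ (fun z => (l' z).1) (fun z => (l' z).2) K' := by
      refine ⟨isOpen_univ, subset_univ _, ?_, ?_, ?_, ?_⟩
      · rw [← compl_eq_univ_sdiff]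
        exact hK'c.isOpen_compl
      · intro z hz
        have h1 : (fun z => (l' z).1) =ᶠ[𝓝 z] fun _ => (l' z).1 := hwloc z hz.2
        exact (contDiffAt_const.congr_of_eventuallyEq h1).contDiffWithinAt
      · intro z hz
        filter_upwards [hLC z hz.2] with y hy
        rw [hy]
      · intro C hC _
        rw [zc_cen hK'c hC.measurableSet (fun z hz => zc_grad (hwloc z hz))]
        calc (μH[1] : Measure ℂ) (K' ∩ C) ≤ (μH[1] : Measure ℂ) ((K ∩ C) ∪ K'') := by
              apply measure_mono
              rintro z ⟨hz | hz, hzC⟩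
              · exact Or.inl ⟨hz.1, hzC⟩
              · exact Or.inr hz
          _ ≤ (μH[1] : Measure ℂ) (K ∩ C) + (μH[1] : Measure ℂ) K'' := measure_union_le _ _
          _ < ⊤ := ENNReal.add_lt_top.mpr ⟨hKfin C hC, lt_top_iff_ne_top.mpr hfin⟩
    have hmin := h.min _ _ K' (closedBall x r) hconf (isCompact_closedBall x r) (subset_univ _)
      (by
        intro z hz
        have hzb : z ∉ closedBall x r := hz.2
        constructor
        · rintro (h1 | h1)
          · exact h1.1
          · exact absurd (hsub h1) hzb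
        · intro h1
          exact Or.inl ⟨h1, fun h2 => hzb (ball_subset_closedBall h2)⟩)
      (by
        intro z hz _
        have h1 := hl' z (fun h2 => hz.2 (ball_subset_closedBall h2))
        rw [h1]
        exact ⟨rfl, rfl⟩)
    rw [zc_cen hK measurableSet_closedBall hg,
      zc_cen hK'c measurableSet_closedBall (fun z hz => zc_grad (hwloc z hz))] at hmin
    have e1 : (μH[1] : Measure ℂ) (K ∩ closedBall x r) =
        (μH[1] : Measure ℂ) (K ∩ ball x r) + (μH[1] : Measure ℂ) (K ∩ sphere x r) := by
      rw [← ball_union_sphere, inter_union_distrib_left]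
      apply measure_union
      · exact sphere_disjoint_ball.symm.mono inter_subset_right inter_subset_right
      · exact hK.measurableSet.inter isClosed_sphere.measurableSet
    have e2 : (μH[1] : Measure ℂ) (K' ∩ closedBall x r) ≤
        (μH[1] : Measure ℂ) K'' + (μH[1] : Measure ℂ) (K ∩ sphere x r) := by
      refine (measure_mono ?_).trans (measure_union_le _ _)
      rintro z ⟨hz | hz, hzb⟩
      · right
        refine ⟨hz.1, ?_⟩
        rw [← ball_union_sphere] at hzb
        rcases hzb with h1 | h1
        · exact absurd h1 hz.2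
        · exact h1
      · exact Or.inl hz
    rw [e1] at hmin
    have hfs : (μH[1] : Measure ℂ) (K ∩ sphere x r) ≠ ⊤ := (hKfin _ (isCompact_sphere x r)).ne
    exact (ENNReal.add_le_add_iff_right hfs).mp (hmin.trans e2)

theorem zc_sphere (x : ℂ) {r : ℝ} (hr : 0 < r) :
    (μH[1] : Measure ℂ) (sphere x r) ≤ ENNReal.ofReal (2 * Real.pi * r) := by
  have h1 : sphere x r ⊆ circleMap x r '' Icc 0 (2 * Real.pi) := by
    have h2 := image_circleMap_Ioc x r
    intro z hz
    rw [abs_of_pos hr] at h2
    rw [← h2] at hz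
    exact image_mono Ioc_subset_Icc_self hz
  refine (measure_mono h1).trans ?_
  have h3 := (lipschitzWith_circleMap x r).hausdorffMeasure_image_le (d := 1) zero_le_one
    (Icc 0 (2 * Real.pi))
  refine h3.trans ?_
  rw [hausdorffMeasure_real, Real.volume_Icc]
  simp only [sub_zero, ENNReal.rpow_one]
  have h4 : ((Real.nnabs r : NNReal) : ℝ≥0∞) = ENNReal.ofReal r := by
    rw [Real.nnabs_of_nonneg hr.le]
    rfl
  rw [h4, ← ENNReal.ofReal_mul hr.le]
  apply ENNReal.ofReal_le_ofReal
  linarith

theorem zg_of_zmin {X : Type*} {l : ℂ → X} {K : Set ℂ} (h : ZMin l K)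
    (hlow : ∀ x ∈ K, ∀ r : ℝ, 0 < r → ENNReal.ofReal (2 * r) ≤ (μH[1] : Measure ℂ) (K ∩ ball x r)) :
    ZGData K := by
  classical
  refine ⟨h.closed, ⟨2 * Real.pi, ?_⟩, hlow, ?_, ?_, ?_, ?_⟩
  · intro x r hr
    refine (h.min x r hr (sphere x r) isClosed_sphere sphere_subset_closedBall
      (fun z => if z ∈ ball x r then l x else l z) (fun z hz => if_neg hz) ?_).trans (zc_sphere x hr)
    intro z hz
    rw [mem_union, not_or] at hz
    by_cases hzb : z ∈ ball x r
    · filter_upwards [isOpen_ball.mem_nhds hzb] with w hw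
      rw [if_pos hw, if_pos hzb]
    · have hzc : z ∉ closedBall x r := by
        intro h1
        rw [← ball_union_sphere] at h1
        rcases h1 with h1 | h1
        · exact hzb h1
        · exact hz.2 h1
      have hzK : z ∉ K := fun hK => hz.1 ⟨hK, hzb⟩
      filter_upwards [h.lc z hzK, isClosed_closedBall.isOpen_compl.mem_nhds hzc] with w hw hw2
      simp only [if_neg hzb]
      rw [if_neg (fun h1 => hw2 (ball_subset_closedBall h1)), hw]
  · intro x hx r hr hf
    by_contra hlt
    push Not at hlt
    have h1 := h.cone hr hf (mem_ball_self hr)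
    have h2 : ∑ p ∈ hf.toFinset, ENNReal.ofReal (dist x p) ≤ ENNReal.ofReal r := by
      have hc : hf.toFinset.card ≤ 1 := by
        rw [← Set.ncard_eq_toFinset_card _ hf]; omega
      have h3 : ∀ p ∈ hf.toFinset, ENNReal.ofReal (dist x p) ≤ ENNReal.ofReal r := by
        intro p hp
        rw [Set.Finite.mem_toFinset] at hp
        rw [dist_comm, mem_sphere.mp hp.2]
      refine (Finset.sum_le_card_nsmul _ _ _ h3).trans ?_
      calc hf.toFinset.card • ENNReal.ofReal r ≤ 1 • ENNReal.ofReal r := by gcongr
        _ = _ := one_nsmul _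
    have h3 := (hlow x hx r hr).trans (h1.trans h2)
    rw [ENNReal.ofReal_le_ofReal_iff hr.le] at h3
    linarith
  · intro x _ r hr p q hpq hKs
    have hf : (K ∩ sphere x r).Finite := by rw [hKs]; exact (finite_singleton q).insert p
    have hps : p ∈ sphere x r := (hKs ▸ mem_insert p {q} : p ∈ K ∩ sphere x r).2
    have hqs : q ∈ sphere x r :=
      (hKs ▸ (mem_insert_of_mem p (mem_singleton q)) : q ∈ K ∩ sphere x r).2
    set m := midpoint ℝ p q with hm
    have hmb : m ∈ ball x r := by
      have h1 := strictConvex_closedBall ℝ x r (sphere_subset_closedBall hps)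
        (sphere_subset_closedBall hqs) hpq (a := 1 / 2) (b := 1 / 2) (by norm_num) (by norm_num)
        (by norm_num)
      rw [interior_closedBall x hr.ne'] at h1
      have h2 : m = (1 / 2 : ℝ) • p + (1 / 2 : ℝ) • q := by
        rw [hm, midpoint_eq_smul_add, smul_add]
        norm_num
      rwa [h2]
    refine (h.cone hr hf hmb).trans ?_
    have h3 : hf.toFinset = {p, q} := by
      ext z
      rw [Set.Finite.mem_toFinset, hKs]
      simp
    rw [h3, Finset.sum_pair hpq, ← ENNReal.ofReal_add dist_nonneg dist_nonneg]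
    apply ENNReal.ofReal_le_ofReal
    rw [hm, dist_midpoint_left, dist_midpoint_right]
    simp only [Real.norm_ofNat]
    linarith
  · intro x _ r hr p q s hpq hqs hps hKs o ho
    have hf : (K ∩ sphere x r).Finite := by
      rw [hKs]; exact ((finite_singleton s).insert q).insert p
    refine (h.cone hr hf ho).trans ?_
    have h3 : hf.toFinset = {p, q, s} := by
      ext z
      rw [Set.Finite.mem_toFinset, hKs]
      simp
    rw [h3, Finset.sum_insert, Finset.sum_pair hqs,
      ← ENNReal.ofReal_add dist_nonneg dist_nonneg, ← ENNReal.ofReal_add dist_nonneg (by positivity)]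
    · apply ENNReal.ofReal_le_ofReal
      linarith
    · simp [hpq, hps]
  · intro x _ r hr hf h4
    rw [Set.ncard_eq_toFinset_card _ hf] at h4 ⊢
    exact h.four hr hf h4

/-- A topological minimizer in the plane with zero gradient satisfies the hypotheses of the
classification. -/
theorem zg_of_tmin {u : ℂ → ℝ} {l : ℂ → Set ℂ} {K : Set ℂ} (h : TMin univ u l K)
    (hg : ∀ x, x ∉ K → cgr u x = 0) : ZGData K := by
  have hz := zmin_of_tmin h hg
  refine zg_of_zmin hz fun x hx r hr => ?_
  have h1 := h.dens x hx r hr (subset_univ _)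
  rwa [zc_cen hz.closed measurableSet_ball hg] at h1

end Pool.Agent.MP099f24
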