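import Mathlib
import Pool.Agent.Lib.MP_099f24_an.EA.Clos
import Pool.Agent.Lib.MP_099f24_an.TM.Bas

/-!
# The energy of the embedded minimizer
-/

namespace Pool.Agent.MP099f24

open MeasureTheory Filter Topology Set Metric
open scoped ENNReal ContDiff

/-- The closure of the discontinuity set is Lebesgue null in `Ω`. -/
theorem emb_volume {Ω : Set ℂ} {u : ℂ → ℝ} {g j : ℂ → ℂ} (h : MSMin Ω u g j) :
    volume (Ω ∩ closure (discSet Ω u)) = 0 := by
  refine measure_null_of_locally_null _ fun x hx => ?_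
  obtain ⟨r, hr, hrΩ⟩ := Metric.nhds_basis_closedBall.mem_iff.1 (h.isOpen.mem_nhds hx.1)
  refine ⟨(Ω ∩ closure (discSet Ω u)) ∩ closedBall x r, inter_mem self_mem_nhdsWithin
    (mem_nhdsWithin_of_mem_nhds (closedBall_mem_nhds x hr)), tm_volume_zero ?_⟩
  have h1 := h.fin_S _ (isCompact_closedBall x r) hrΩ
  calc (μH[1] : Measure ℂ) ((Ω ∩ closure (discSet Ω u)) ∩ closedBall x r)
      ≤ (μH[1] : Measure ℂ) ((discSet Ω u ∩ closedBall x r) ∪
          ((Ω ∩ closure (discSet Ω u)) \ discSet Ω u)) := by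
        apply measure_mono
        rintro z ⟨hz, hzb⟩
        by_cases hzS : z ∈ discSet Ω u
        · exact Or.inl ⟨hzS, hzb⟩
        · exact Or.inr ⟨hz, hzS⟩
    _ ≤ (μH[1] : Measure ℂ) (discSet Ω u ∩ closedBall x r) + 0 := by
        refine (measure_union_le _ _).trans ?_
        rw [ea_clos h]
    _ < ⊤ := by rwa [add_zero]

/-- The energy of the embedded minimizer is the energy of the minimizer, on every measurable set. -/
theorem emb_en {Ω : Set ℂ} {u : ℂ → ℝ} {g j : ℂ → ℂ} (h : MSMin Ω u g j) {u' : ℂ → ℝ} {x : ℂ}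
    {r : ℝ} (hx : ball x r ⊆ Ω) (hae : ∀ᵐ z ∂(volume.restrict (ball x r)), cgr u' z = g z)
    {A : Set ℂ} (hAx : A ⊆ ball x r) :
    cen u' (ball x r ∩ closure (discSet Ω u)) A = en Ω u g A := by
  unfold cen en
  have hnull : volume (ball x r ∩ closure (discSet Ω u)) = 0 :=
    measure_mono_null (inter_subset_inter_left _ hx) (emb_volume h)
  congr 1
  · have h1 : (A \ (ball x r ∩ closure (discSet Ω u)) : Set ℂ) =ᵐ[volume] A :=
      sdiff_null_ae_eq_self hnull
    rw [setLIntegral_congr h1]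
    have h2 : ∀ᵐ z ∂(volume.restrict A), cgr u' z = g z :=
      ae_restrict_of_ae_restrict_of_subset hAx hae
    refine lintegral_congr_ae ?_
    filter_upwards [h2] with z hz
    rw [hz]
  · apply le_antisymm
    · calc (μH[1] : Measure ℂ) ((ball x r ∩ closure (discSet Ω u)) ∩ A)
          ≤ (μH[1] : Measure ℂ) ((discSet Ω u ∩ A) ∪
              ((Ω ∩ closure (discSet Ω u)) \ discSet Ω u)) := by
            apply measure_mono
            rintro z ⟨hz, hzb⟩
            by_cases hzS : z ∈ discSet Ω u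
            · exact Or.inl ⟨hzS, hzb⟩
            · exact Or.inr ⟨⟨hx hz.1, hz.2⟩, hzS⟩
        _ ≤ (μH[1] : Measure ℂ) (discSet Ω u ∩ A) + 0 := by
            refine (measure_union_le _ _).trans ?_
            rw [ea_clos h]
        _ = _ := add_zero _
    · apply measure_mono
      rintro z ⟨hz, hzA⟩
      exact ⟨⟨hAx hzA, subset_closure hz⟩, hzA⟩

/-- The energy of the embedded minimizer in balls. -/
theorem emb_energy {Ω : Set ℂ} {u : ℂ → ℝ} {g j : ℂ → ℂ} (h : MSMin Ω u g j) {u' : ℂ → ℝ} {x : ℂ}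
    {r : ℝ} (hx : ball x r ⊆ Ω) (hae : ∀ᵐ z ∂(volume.restrict (ball x r)), cgr u' z = g z)
    {y : ℂ} {s : ℝ} (hy : closedBall y s ⊆ ball x r) :
    cen u' (ball x r ∩ closure (discSet Ω u)) (ball y s) =
      ENNReal.ofReal (Dq g y s + Lq Ω u y s) := by
  rw [emb_en h hx hae (ball_subset_closedBall.trans hy)]
  rcases lt_or_ge s 0 with hs | hs
  · have h1 : ball y s = ∅ := ball_eq_empty.2 hs.le
    simp [en, Dq, Lq, h1]
  · obtain ⟨δ, hδ, hδr⟩ := (isCompact_closedBall y s).exists_thickening_subset_open isOpen_ball hy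
    rw [thickening_closedBall hδ hs] at hδr
    exact en_ball h.toSBVData (hδr.trans hx) (by linarith)

/-- The energy of the embedded minimizer in closed balls is at most that in larger balls. -/
theorem emb_energy_closed {Ω : Set ℂ} {u : ℂ → ℝ} {g j : ℂ → ℂ} (h : MSMin Ω u g j) {u' : ℂ → ℝ}
    {x : ℂ} {r : ℝ} (hx : ball x r ⊆ Ω)
    (hae : ∀ᵐ z ∂(volume.restrict (ball x r)), cgr u' z = g z)
    {y : ℂ} {s t : ℝ} (hst : s < t) (hy : closedBall y t ⊆ ball x r) :
    ENNReal.ofReal (Dq g y s + Lq Ω u y s) ≤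
        cen u' (ball x r ∩ closure (discSet Ω u)) (closedBall y s) ∧
      cen u' (ball x r ∩ closure (discSet Ω u)) (closedBall y s) ≤
        ENNReal.ofReal (Dq g y t + Lq Ω u y t) := by
  constructor
  · rw [← emb_energy h hx hae ((closedBall_subset_closedBall hst.le).trans hy)]
    exact cen_mono ball_subset_closedBall
  · rw [← emb_energy h hx hae hy]
    exact cen_mono (closedBall_subset_ball hst)

end Pool.Agent.MP099f24
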